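import Pool.Agent.H5.EG.Spec2

set_option autoImplicit false

/-!
# EG project (helper5), task pivot (helper726)
-/

namespace Pool.Agent.H726.EG

open Pool.Agent.H5.EG PowerSeries

/-- echelon form -/
theorem ech (N : ℕ) : ∀ (b : ℕ) (U : Submodule ℂ (PowerSeries ℂ)), Module.Finite ℂ U →
    Module.finrank ℂ U = b → (∀ f ∈ U, (∀ k < N, PowerSeries.coeff k f = 0) → f = 0) →
    ∃ p : Fin b → ℕ, StrictMono p ∧ (∀ i, p i < N) ∧ ∃ h : Fin b → PowerSeries ℂ,
      (∀ i, h i ∈ U) ∧ (∀ i, ∀ k < p i, PowerSeries.coeff k (h i) = 0) ∧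
      ∀ i, PowerSeries.coeff (p i) (h i) = 1 := by
  classical
  intro b
  induction b with
  | zero =>
    intro U _ _ _
    exact ⟨fun i => i.elim0, fun i => i.elim0, fun i => i.elim0, fun i => i.elim0,
      fun i => i.elim0, fun i => i.elim0, fun i => i.elim0⟩
  | succ b ih =>
    intro U hfin hU hN
    have hex : ∃ k, ∃ f ∈ U, PowerSeries.coeff k f ≠ 0 := by
      by_contra hcon
      push Not at hcon
      have h0 : U = ⊥ := by
        rw [Submodule.eq_bot_iff]
        intro f hf
        exact hN f hf fun k _ => hcon k f hf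
      rw [h0, finrank_bot] at hU
      omega
    obtain ⟨f, hfU, hf⟩ := Nat.find_spec hex
    have hmin : ∀ k < Nat.find hex, ∀ g ∈ U, PowerSeries.coeff k g = 0 := by
      intro k hk g hg
      by_contra hne
      exact Nat.find_min hex hk ⟨g, hg, hne⟩
    set p0 : ℕ := Nat.find hex with hp0
    have hp0N : p0 < N := by
      by_contra hcon
      have h1 : f = 0 := hN f hfU fun k hk => hmin k (by omega) f hfU
      rw [h1, map_zero] at hf
      exact hf rfl
    let φ : U →ₗ[ℂ] ℂ := (PowerSeries.coeff p0).comp U.subtype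
    have hφ : LinearMap.range φ = ⊤ := by
      rw [LinearMap.range_eq_top]
      apply LinearMap.surjective
      intro h0
      apply hf
      have := LinearMap.congr_fun h0 ⟨f, hfU⟩
      exact this
    have hker : Module.finrank ℂ (LinearMap.ker φ) = b := by
      have h1 := LinearMap.finrank_range_add_finrank_ker φ
      rw [hφ, finrank_top, Module.finrank_self, hU] at h1
      omega
    set U' : Submodule ℂ (PowerSeries ℂ) := (LinearMap.ker φ).map U.subtype with hU'
    have hmem : ∀ g ∈ U', g ∈ U ∧ PowerSeries.coeff p0 g = 0 := by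
      rintro g ⟨y, hy, rfl⟩
      exact ⟨y.2, hy⟩
    have hfin' : Module.Finite ℂ U' := inferInstance
    have hrank : Module.finrank ℂ U' = b := by
      rw [hU', Submodule.finrank_map_subtype_eq, hker]
    obtain ⟨p, hpm, hpN, h, hhU, hh0, hh1⟩ := ih U' hfin' hrank
      (fun g hg => hN g (hmem g hg).1)
    have hlt : ∀ i, p0 < p i := by
      intro i
      by_contra hcon
      have hle : p i ≤ p0 := not_lt.1 hcon
      have h1 := hh1 i
      have h2 := hmem (h i) (hhU i)
      rcases hle.lt_or_eq with h3 | h3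
      · rw [hmin _ h3 _ h2.1] at h1
        exact zero_ne_one h1
      · rw [h3, h2.2] at h1
        exact zero_ne_one h1
    refine ⟨Fin.cons p0 p, ?_, ?_, Fin.cons ((PowerSeries.coeff p0 f)⁻¹ • f) h, ?_, ?_, ?_⟩
    · intro i j hij
      refine Fin.cases (fun hij => ?_) (fun i hij => ?_) i hij
      · obtain ⟨j', rfl⟩ := Fin.exists_succ_eq.2 (Fin.pos_iff_ne_zero.1 hij)
        rw [Fin.cons_zero, Fin.cons_succ]
        exact hlt j'
      · obtain ⟨j', rfl⟩ := Fin.exists_succ_eq.2
          (Fin.pos_iff_ne_zero.1 (lt_of_le_of_lt (Fin.zero_le _) hij))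
        rw [Fin.cons_succ, Fin.cons_succ]
        exact hpm (Fin.succ_lt_succ_iff.1 hij)
    · intro i
      refine Fin.cases ?_ (fun i => ?_) i
      · rw [Fin.cons_zero]; exact hp0N
      · rw [Fin.cons_succ]; exact hpN i
    · intro i
      refine Fin.cases ?_ (fun i => ?_) i
      · rw [Fin.cons_zero]; exact U.smul_mem _ hfU
      · rw [Fin.cons_succ]; exact (hmem _ (hhU i)).1
    · intro i
      refine Fin.cases ?_ (fun i => ?_) i
      · rw [Fin.cons_zero, Fin.cons_zero]
        intro k hk
        rw [PowerSeries.coeff_smul, hmin k hk f hfU, smul_zero]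
      · rw [Fin.cons_succ, Fin.cons_succ]; exact hh0 i
    · intro i
      refine Fin.cases ?_ (fun i => ?_) i
      · rw [Fin.cons_zero, Fin.cons_zero, PowerSeries.coeff_smul, smul_eq_mul,
          inv_mul_cancel₀ hf]
      · rw [Fin.cons_succ, Fin.cons_succ]; exact hh1 i

/-- the Wronskian of power series of strictly increasing orders -/
theorem wron {b : ℕ} (p : Fin b → ℕ) (h : Fin b → PowerSeries ℂ)
    (h0 : ∀ i, ∀ k < p i, PowerSeries.coeff k (h i) = 0)
    (h1 : ∀ i, PowerSeries.coeff (p i) (h i) = 1) :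
    (∀ k < ∑ i, p i,
      PowerSeries.coeff k (Matrix.of fun i (l : Fin b) => D^[(l : ℕ)] (h i)).det = 0) ∧
    PowerSeries.coeff (∑ i, p i) (Matrix.of fun i (l : Fin b) => D^[(l : ℕ)] (h i)).det =
      (Matrix.vandermonde fun i => (p i : ℂ)).det := by
  have hdvd : ∀ (i l : Fin b), ∃ e : PowerSeries ℂ, D^[(l : ℕ)] (h i) = X ^ p i * e := by
    intro i l
    have : (X : PowerSeries ℂ) ^ p i ∣ D^[(l : ℕ)] (h i) := by
      rw [PowerSeries.X_pow_dvd_iff]
      intro k hk
      rw [coeff_D_iter, h0 i k hk, mul_zero]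
    obtain ⟨e, he⟩ := this
    exact ⟨e, he⟩
  choose e he using hdvd
  have hce : ∀ (i l : Fin b), PowerSeries.constantCoeff (e i l) = (p i : ℂ) ^ (l : ℕ) := by
    intro i l
    have h2 := PowerSeries.coeff_X_pow_mul (e i l) (p i) 0
    rw [zero_add, ← he, coeff_D_iter, h1, mul_one] at h2
    rw [← PowerSeries.coeff_zero_eq_constantCoeff_apply, ← h2]
  have hdet : (Matrix.of fun i (l : Fin b) => D^[(l : ℕ)] (h i)).det =
      X ^ (∑ i, p i) * (Matrix.of fun i l => e i l).det := by
    have h3 : (Matrix.of fun i (l : Fin b) => D^[(l : ℕ)] (h i)) =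
        Matrix.of fun i l => X ^ p i * (Matrix.of fun i l => e i l) i l := by
      ext1 i l
      exact he i l
    rw [h3, Matrix.det_mul_column, Finset.prod_pow_eq_pow_sum]
  rw [hdet]
  refine ⟨fun k hk => ?_, ?_⟩
  · exact PowerSeries.X_pow_dvd_iff.1 (dvd_mul_right _ _) k hk
  · have h4 := PowerSeries.coeff_X_pow_mul (Matrix.of fun i l => e i l).det (∑ i, p i) 0
    rw [zero_add] at h4
    rw [h4, PowerSeries.coeff_zero_eq_constantCoeff_apply, RingHom.map_det]
    congr 1
    ext i l
    rw [RingHom.mapMatrix_apply, Matrix.map_apply, Matrix.of_apply, hce, Matrix.vandermonde_apply]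

theorem toC_iter (w : PowerSeries ℤ) (l : ℕ) : toC (D^[l] w) = D^[l] (toC w) := by
  induction l with
  | zero => rfl
  | succ l ih => rw [Function.iterate_succ_apply', Function.iterate_succ_apply', toC_D, ih]

theorem pivot : S_pivot := by
  classical
  intro b N v hv
  have hcf : ∀ i k, cf (v i) k = PowerSeries.coeff k (toC (v i)) := by
    intro i k
    rw [coeff_toC]
    rfl
  set u : Fin b → PowerSeries ℂ := fun i => toC (v i) with hu
  have hli : LinearIndependent ℂ u := by
    rw [Fintype.linearIndependent_iff]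
    intro d hd
    refine hv d fun k _ => ?_
    have h1 := congrArg (PowerSeries.coeff k) hd
    rw [map_sum, map_zero] at h1
    rw [← h1]
    refine Finset.sum_congr rfl fun i _ => ?_
    rw [hcf, PowerSeries.coeff_smul, smul_eq_mul]
  have hrank : Module.finrank ℂ (Submodule.span ℂ (Set.range u)) = b := by
    rw [finrank_span_eq_card hli, Fintype.card_fin]
  have hfin : Module.Finite ℂ (Submodule.span ℂ (Set.range u)) :=
    Module.Finite.span_of_finite ℂ (Set.finite_range u)
  have hcoef : ∀ f ∈ Submodule.span ℂ (Set.range u), ∃ d : Fin b → ℂ, ∑ i, d i • u i = f :=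
    fun f hf => (Submodule.mem_span_range_iff_exists_fun ℂ).1 hf
  obtain ⟨p, hpm, hpN, h, hhU, hh0, hh1⟩ := ech N b _ hfin hrank (by
    intro f hf hk
    obtain ⟨d, rfl⟩ := hcoef f hf
    have h2 := hv d fun k hkN => by
      have h3 := hk k hkN
      rw [map_sum] at h3
      rw [← h3]
      refine Finset.sum_congr rfl fun i _ => ?_
      rw [hcf, PowerSeries.coeff_smul, smul_eq_mul]
    exact Finset.sum_eq_zero fun i _ => by rw [h2 i, zero_smul])
  choose P hP using fun i => hcoef (h i) (hhU i)
  -- the matrices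
  set A : Matrix (Fin b) (Fin b) ℤ := Matrix.of fun i l => PowerSeries.coeff (p l) (v i) with hA
  set AC : Matrix (Fin b) (Fin b) ℂ := Matrix.of fun i l => PowerSeries.coeff (p l) (u i) with hAC
  have hAdet : (A.det : ℂ) = AC.det := by
    have h1 : AC = (Int.castRingHom ℂ).mapMatrix A := by
      ext i l
      rw [RingHom.mapMatrix_apply, Matrix.map_apply, hA, hAC, Matrix.of_apply, Matrix.of_apply, hu]
      simp only [coeff_toC]
      rfl
    rw [h1, ← RingHom.map_det]
    rfl
  have hPA : (Matrix.of P).det * AC.det = 1 := by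
    rw [← Matrix.det_mul]
    have h1 : (Matrix.of P) * AC = Matrix.of fun i l => PowerSeries.coeff (p l) (h i) := by
      ext i l
      rw [Matrix.mul_apply, Matrix.of_apply, ← hP i, map_sum]
      refine Finset.sum_congr rfl fun j _ => ?_
      rw [Matrix.of_apply, hAC, Matrix.of_apply, PowerSeries.coeff_smul, smul_eq_mul]
    rw [h1, Matrix.det_of_isUpperTriangular]
    · exact Finset.prod_eq_one fun i _ => hh1 i
    · intro i l hil
      exact hh0 i (p l) (hpm hil)
  have hAne : A.det ≠ 0 := by
    intro h0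
    rw [← hAdet, h0, Int.cast_zero, mul_zero] at hPA
    exact zero_ne_one hPA
  have hPne : (Matrix.of P).det ≠ 0 := left_ne_zero_of_mul_eq_one hPA
  set Wz := (Matrix.of fun i (l : Fin b) => D^[(l : ℕ)] (v i)).det with hWz
  set Wu := (Matrix.of fun i (l : Fin b) => D^[(l : ℕ)] (u i)).det with hWu
  set Wh := (Matrix.of fun i (l : Fin b) => D^[(l : ℕ)] (h i)).det with hWh
  have hzu : ∀ k, ((PowerSeries.coeff k Wz : ℤ) : ℂ) = PowerSeries.coeff k Wu := by
    intro k
    rw [← coeff_toC]
    congr 1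
    rw [hWz, hWu]
    unfold toC
    rw [RingHom.map_det]
    congr 1
    ext1 i l
    exact toC_iter (v i) l
  have huh : Wh = PowerSeries.C (Matrix.of P).det * Wu := by
    rw [RingHom.map_det, hWu, ← Matrix.det_mul, hWh]
    congr 1
    ext1 i l
    rw [Matrix.mul_apply, Matrix.of_apply]
    ext k
    rw [coeff_D_iter, map_sum, ← hP i, map_sum, Finset.mul_sum]
    refine Finset.sum_congr rfl fun j _ => ?_
    rw [RingHom.mapMatrix_apply, Matrix.map_apply, Matrix.of_apply, Matrix.of_apply,
      PowerSeries.coeff_C_mul, coeff_D_iter, PowerSeries.coeff_smul, smul_eq_mul]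
    ring
  have hcu : ∀ k, PowerSeries.coeff k Wh = (Matrix.of P).det * PowerSeries.coeff k Wu := by
    intro k
    rw [huh, PowerSeries.coeff_C_mul]
  obtain ⟨hw0, hw1⟩ := wron p h hh0 hh1
  have hVC : (Matrix.vandermonde fun i => (p i : ℂ)).det =
      (((Matrix.vandermonde fun i => (p i : ℤ)).det : ℤ) : ℂ) := by
    rw [Matrix.det_vandermonde, Matrix.det_vandermonde]
    push_cast
    rfl
  refine ⟨p, hpm, hpN, hAne, (Matrix.vandermonde fun i => (p i : ℤ)).det, ?_, ?_, ?_⟩
  · rw [Matrix.det_vandermonde]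
    have h1 : (0 : ℤ) < ∏ i : Fin b, ∏ j ∈ Finset.Ioi i, ((p j : ℤ) - p i) := by
      refine Finset.prod_pos fun i _ => Finset.prod_pos fun j hj => ?_
      have := hpm (Finset.mem_Ioi.1 hj)
      omega
    omega
  · intro k hk
    have h1 := hw0 k hk
    rw [← hWh, hcu] at h1
    have h2 : PowerSeries.coeff k Wu = 0 := by
      rcases mul_eq_zero.1 h1 with h3 | h3
      · exact absurd h3 hPne
      · exact h3
    have h4 := hzu k
    rw [h2] at h4
    exact_mod_cast h4
  · have h1 := hw1
    rw [← hWh, hcu, hVC] at h1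
    have h2 : PowerSeries.coeff (∑ i, p i) Wu =
        (A.det : ℂ) * (((Matrix.vandermonde fun i => (p i : ℤ)).det : ℤ) : ℂ) := by
      rw [← h1, hAdet]
      calc PowerSeries.coeff (∑ i, p i) Wu = 1 * PowerSeries.coeff (∑ i, p i) Wu := (one_mul _).symm
        _ = ((Matrix.of P).det * AC.det) * PowerSeries.coeff (∑ i, p i) Wu := by rw [hPA]
        _ = _ := by ring
    have h4 := hzu (∑ i, p i)
    rw [h2] at h4
    exact_mod_cast h4

end Pool.Agent.H726.EG
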